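import Pool.Agent.Run7.h62.PRAINBOW

/-!
A Hall theorem for cochains: if the restriction of a complex to the union of any `k` colour
classes is exact in all sizes below `k`, then some member of the complex meets all the colour
classes.  The weighted form of the connectivity theorem of matching complexes of 3-partite
3-graphs.
-/

set_option autoImplicit false
set_option linter.unusedSectionVars false

namespace Run7.h695.RB

open Run7.h62 Run7.h62.RAINBOW

universe u v w

variable {E : Type u} [DecidableEq E] {A : Type v} [AddCommGroup A]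
variable {ι : Type w} [DecidableEq ι] (c : E → ι)

/-- the members of `K` with colours in `T ∪ F` which meet all the classes in `T` -/
def Pt (K : Finset E → Prop) (T F : Finset ι) (s : Finset E) : Prop :=
  K s ∧ (∀ e ∈ s, c e ∈ T ∪ F) ∧ ∀ i ∈ T, ∃ e ∈ s, c e = i

theorem Pt_conv {K : Finset E → Prop} (hK : Down K) (T F : Finset ι) : Conv (Pt c K T F) := by
  rintro r s t hrs hst ⟨_, _, h3⟩ ⟨h4, h5, _⟩
  exact ⟨hK _ _ hst h4, fun e he => h5 e (hst he), fun i hi =>
    let ⟨e, he, hc⟩ := h3 i hi; ⟨e, hrs he, hc⟩⟩

theorem Pt_sub {K : Finset E → Prop} (T F : Finset ι) (i : ι) (s : Finset E)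
    (h : Pt c K T F s) : Pt c K T (insert i F) s :=
  ⟨h.1, fun e he => by have := h.2.1 e he; simp only [Finset.mem_union, Finset.mem_insert] at *; tauto,
    h.2.2⟩

theorem Pt_cl {K : Finset E → Prop} (T F : Finset ι) (i : ι) (s t : Finset E) (hts : t ⊆ s)
    (h : Pt c K T F s) (h' : Pt c K T (insert i F) t) : Pt c K T F t :=
  ⟨h'.1, fun e he => h.2.1 e (hts he), h'.2.2⟩

theorem Pt_open {K : Finset E → Prop} (T F : Finset ι) (i : ι) (hT : i ∉ T) (hF : i ∉ F)
    (s : Finset E) :
    (Pt c K T (insert i F) s ∧ ¬ Pt c K T F s) ↔ Pt c K (insert i T) F s := by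
  unfold Pt
  constructor
  · rintro ⟨⟨h1, h2, h3⟩, h4⟩
    refine ⟨h1, fun e he => ?_, fun j hj => ?_⟩
    · have := h2 e he
      simp only [Finset.mem_union, Finset.mem_insert] at *; tauto
    · rcases Finset.mem_insert.1 hj with rfl | hj
      · by_contra hcon
        push Not at hcon
        refine h4 ⟨h1, fun e he => ?_, h3⟩
        have h5 := h2 e he
        have h6 := hcon e he
        simp only [Finset.mem_union, Finset.mem_insert] at *; tauto
      · exact h3 j hj
  · rintro ⟨h1, h2, h3⟩
    refine ⟨⟨h1, fun e he => ?_, fun j hj => h3 j (Finset.mem_insert_of_mem hj)⟩, fun h => ?_⟩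
    · have := h2 e he
      simp only [Finset.mem_union, Finset.mem_insert] at *; tauto
    · obtain ⟨e, he, hc⟩ := h3 i (Finset.mem_insert_self _ _)
      have := h.2.1 e he
      rw [hc, Finset.mem_union] at this
      exact this.elim hT hF

theorem ex_Pt {K : Finset E → Prop} (hK : Down K) (d : ℕ)
    (h : ∀ (I : Finset ι) (n : ℕ), n + 1 + d ≤ I.card →
      Ex A (fun s => K s ∧ ∀ e ∈ s, c e ∈ I) n)
    (T : Finset ι) : ∀ (F : Finset ι) (n : ℕ), Disjoint T F → n + 1 + d ≤ T.card + F.card →
      Ex A (Pt c K T F) n := by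
  induction T using Finset.induction_on with
  | empty =>
    intro F n _ hn
    refine ex_congr (fun s => ?_) (h F n (by simpa using hn))
    simp [Pt]
  | insert i T hi ih =>
    intro F n hd hn
    have hiF : i ∉ F := Finset.disjoint_left.1 hd (Finset.mem_insert_self _ _)
    have hTF : Disjoint T F := Finset.disjoint_of_subset_left (Finset.subset_insert _ _) hd
    have hTiF : Disjoint T (insert i F) := by
      rw [Finset.disjoint_insert_right]; exact ⟨hi, hTF⟩
    rw [Finset.card_insert_of_notMem hi] at hn
    have hc : (insert i F).card = F.card + 1 := Finset.card_insert_of_notMem hiF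
    refine ex_congr (fun s => Pt_open c T F i hi hiF s) ?_
    cases n with
    | zero => exact ex_open_zero (A := A) (Pt_cl c T F i) (ih _ 0 hTiF (by omega))
    | succ n =>
      have h1 := ih _ (n + 1) hTiF (by omega)
      have h2 := ih _ n hTF (by omega)
      exact ex_open (A := A) (Pt_conv c hK _ _) (Pt_sub c T F i) (Pt_cl c T F i) h1 h2

/-- Hall's theorem for cochains, with deficiency `d`. -/
theorem hall [Fintype E] [Fintype ι] {K : Finset E → Prop} (hK : Down K) (hK0 : K ∅) (a : A)
    (ha : a ≠ 0) (d : ℕ)
    (h : ∀ (I : Finset ι) (n : ℕ), n + 1 + d ≤ I.card →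
      Ex A (fun s => K s ∧ ∀ e ∈ s, c e ∈ I) n) :
    ∃ s, K s ∧ Fintype.card ι ≤ (s.image c).card + d := by
  by_contra hcon
  push Not at hcon
  have key : ∀ (k : ℕ) (T F : Finset ι), Disjoint T F →
      (Fintype.card ι - d - T.card) + (d - F.card) ≤ k → Ex A (Pt c K T F) T.card := by
    intro k
    induction k with
    | zero =>
      intro T F hTF hk
      refine ex_trivial fun s hs => ?_
      have h1 : T.card ≤ (s.image c).card := Finset.card_le_card fun i hi => by
        obtain ⟨e, he, hc⟩ := hs.2.2 i hi
        exact Finset.mem_image.2 ⟨e, he, hc⟩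
      have h2 := hcon s hs.1
      omega
    | succ k ih =>
      intro T F hTF hk
      by_cases hT : Fintype.card ι ≤ T.card + d
      · refine ex_trivial fun s hs => ?_
        have h1 : T.card ≤ (s.image c).card := Finset.card_le_card fun i hi => by
          obtain ⟨e, he, hc⟩ := hs.2.2 i hi
          exact Finset.mem_image.2 ⟨e, he, hc⟩
        have h2 := hcon s hs.1
        omega
      · have hu : (T ∪ F).card = T.card + F.card := Finset.card_union_of_disjoint hTF
        by_cases hF : F.card < d
        · obtain ⟨i, hi⟩ : ∃ i, i ∉ T ∪ F := by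
            by_contra hall
            push Not at hall
            have : Fintype.card ι ≤ (T ∪ F).card := by
              rw [← Finset.card_univ]
              exact Finset.card_le_card fun i _ => hall i
            omega
          rw [Finset.mem_union, not_or] at hi
          have hTiF : Disjoint T (insert i F) := by
            rw [Finset.disjoint_insert_right]; exact ⟨hi.1, hTF⟩
          have hiTF : Disjoint (insert i T) F := by
            rw [Finset.disjoint_insert_left]; exact ⟨hi.2, hTF⟩
          have c1 : (insert i F).card = F.card + 1 := Finset.card_insert_of_notMem hi.2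
          have c2 : (insert i T).card = T.card + 1 := Finset.card_insert_of_notMem hi.1
          have h1 := ih T (insert i F) hTiF (by omega)
          have h2 := ih (insert i T) F hiTF (by omega)
          rw [c2] at h2
          exact ex_closed (A := A) (Pt_conv c hK _ _) (Pt_sub c T F i) (Pt_cl c T F i) h1
            (ex_congr (fun s => (Pt_open c T F i hi.1 hi.2 s).symm) h2)
        · by_cases hi : ∃ i, i ∉ T ∪ F
          · obtain ⟨i, hi⟩ := hi
            rw [Finset.mem_union, not_or] at hi
            have hTiF : Disjoint T (insert i F) := by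
              rw [Finset.disjoint_insert_right]; exact ⟨hi.1, hTF⟩
            have hiTF : Disjoint (insert i T) F := by
              rw [Finset.disjoint_insert_left]; exact ⟨hi.2, hTF⟩
            have c1 : (insert i F).card = F.card + 1 := Finset.card_insert_of_notMem hi.2
            have c2 : (insert i T).card = T.card + 1 := Finset.card_insert_of_notMem hi.1
            have h1 : Ex A (Pt c K T (insert i F)) T.card :=
              ex_Pt c hK d h T _ _ hTiF (by omega)
            have h2 := ih (insert i T) F hiTF (by omega)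
            rw [c2] at h2
            exact ex_closed (A := A) (Pt_conv c hK _ _) (Pt_sub c T F i) (Pt_cl c T F i) h1
              (ex_congr (fun s => (Pt_open c T F i hi.1 hi.2 s).symm) h2)
          · push Not at hi
            have : Fintype.card ι ≤ (T ∪ F).card := by
              rw [← Finset.card_univ]
              exact Finset.card_le_card fun i _ => hi i
            exact ex_Pt c hK d h T F _ hTF (by omega)
  have h0 := key _ ∅ ∅ (Finset.disjoint_empty_left _) le_rfl
  rw [Finset.card_empty] at h0
  refine ha (h0 (fun _ => a) (fun v hv => ?_) (fun v hv => ?_) Fin.elim0)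
  · have := hv.2.1 (v 0) (mem_rg.2 ⟨0, rfl⟩)
    simp at this
  · refine absurd ?_ hv
    have : rg v = ∅ := by simp [rg]
    rw [this]
    exact ⟨hK0, by simp, by simp⟩

/-- The weighted form of the homological connectivity of matching complexes of 3-partite
3-graphs: the vertices of the first class have weight two in the covers. -/
theorem hom_conn_w {W : Type w} [Fintype E] [DecidableEq W] (H : E → Fin 3 → W)
    (S : Set E) (k : ℕ) (hS : ∀ U₀ U₁ U₂ : Finset W, 2 * U₀.card + U₁.card + U₂.card ≤ 4 * k →
      ∃ e ∈ S, H e 0 ∉ U₀ ∧ H e 1 ∉ U₁ ∧ H e 2 ∉ U₂)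
    (n : ℕ) (hn : n ≤ k) : Ex A (Mat H S) n := by
  classical
  set S' : Finset E := Finset.univ.filter fun e => e ∈ S with hS'
  have inj : ∀ i : Fin 3, Down fun s : Finset E => ∀ e ∈ s, ∀ f ∈ s, H e i = H f i → e = f :=
    fun i s t hst h e he f hf => h e (hst he) f (hst hf)
  refine ex_congr (fun s => ?_) (rainbow (fun e => H e 0) (C := fun s => (s ⊆ S' ∧
    ∀ e ∈ s, ∀ f ∈ s, H e 2 = H f 2 → e = f) ∧ ∀ e ∈ s, ∀ f ∈ s, H e 1 = H f 1 → e = f)
    (fun s t hst h => ⟨⟨hst.trans h.1.1, inj 2 _ _ hst h.1.2⟩, inj 1 _ _ hst h.2⟩) k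
    (fun F n hF => ?_) n hn)
  · simp only [Mat, Dj, hS']
    constructor
    · rintro ⟨⟨⟨a, b⟩, c⟩, d⟩
      refine ⟨fun e he => by simpa using a he, fun e he f hf hef i hi => hef ?_⟩
      fin_cases i
      · exact d e he f hf hi
      · exact c e he f hf hi
      · exact b e he f hf hi
    · rintro ⟨a, b⟩
      have b' : ∀ i : Fin 3, ∀ e ∈ s, ∀ f ∈ s, H e i = H f i → e = f := fun i e he f hf hi => by
        by_contra hef
        exact b e he f hf hef i hi
      exact ⟨⟨⟨fun e he => by simpa using a e he, b' 2⟩, b' 1⟩, b' 0⟩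
  · refine ex_congr (fun s => ?_) (rainbow (fun e => H e 1) (C := fun s => s ⊆ S' ∩ F ∧
      ∀ e ∈ s, ∀ f ∈ s, H e 2 = H f 2 → e = f)
      (fun s t hst h => ⟨hst.trans h.1, inj 2 _ _ hst h.2⟩) n (fun F' n' hF' => ?_) n le_rfl)
    · simp only [Finset.subset_inter_iff]
      tauto
    · refine ex_congr (fun s => ?_) (S0 (fun e => H e 2)
        (Finset.univ.image fun e => H e 2) ((S' ∩ F) ∩ F') n' ?_)
      · simp only [RAINBOW.One, Finset.mem_image, Finset.mem_univ, true_and,
          Finset.subset_inter_iff]
        constructor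
        · rintro ⟨a, ⟨b, c⟩, d⟩
          exact ⟨⟨⟨b, c⟩, fun e he f hf hef => a _ ⟨f, rfl⟩ e he f hf hef rfl⟩, d⟩
        · rintro ⟨⟨⟨b, c⟩, a⟩, d⟩
          refine ⟨?_, ⟨b, c⟩, d⟩
          rintro j _ e he f hf hej hfj
          exact a e he f hf (hej.trans hfj.symm)
      · by_contra hlt
        push Not at hlt
        obtain ⟨e, he, h0, h1, h2⟩ := hS ((Finset.univ \ F).image (fun e => H e 0))
          ((Finset.univ \ F').image (fun e => H e 1))
            (((S' ∩ F) ∩ F').image fun e => H e 2) (by omega)
        by_cases heF : e ∈ F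
        · by_cases heF' : e ∈ F'
          · exact h2 (Finset.mem_image.2 ⟨e, by simp [hS', he, heF, heF'], rfl⟩)
          · exact h1 (Finset.mem_image.2 ⟨e, by simp [heF'], rfl⟩)
        · exact h0 (Finset.mem_image.2 ⟨e, by simp [heF], rfl⟩)

end Run7.h695.RB
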